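import Pool.Agent.L7h10.AB.Stm2

set_option autoImplicit false

/-! Project AB, second stage, part CB. -/

namespace Pool.Agent.L7h32.AB

open Pool.Agent.L7h10.AB Polynomial

theorem card_le_of_rel {T A : Type} [Finite A] (R : T → A → Prop) (h1 : ∀ x, ∃ a, R x a)
    (h2 : ∀ x y a, R x a → R y a → x = y) : Nat.card T ≤ Nat.card A := by
  choose f hf using h1
  refine Nat.card_le_card_of_injective f (fun x y hxy => h2 x y (f x) (hf x) ?_)
  rw [hxy]
  exact hf y

theorem cube_dvd {K : Type} [Field K] (h2 : (2 : K) ≠ 0) (F : K[X]) (b : K)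
    (h : (X - C b) ^ 2 ∣ derivative F) : (X - C b) ^ 3 ∣ F - C (F.eval b) := by
  obtain ⟨A, hA⟩ : (X - C b) ∣ F - C (F.eval b) := X_sub_C_dvd_sub_C_eval
  have hd : derivative F = A + (X - C b) * derivative A := by
    have h3 : derivative (F - C (F.eval b)) = derivative F := by simp
    rw [← h3, hA, derivative_mul]
    simp
  obtain ⟨D, hD⟩ := h
  have hAb : A.IsRoot b := by
    have h3 := congrArg (eval b) (hd.symm.trans hD)
    simpa [IsRoot] using h3
  obtain ⟨B, hB⟩ := dvd_iff_isRoot.2 hAb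
  have hd2 : (X - C b) * (C 2 * B) = (X - C b) * ((X - C b) * (D - derivative B)) := by
    have h3 : derivative A = B + (X - C b) * derivative B := by
      rw [hB, derivative_mul]
      simp
    have h4 := hd.symm.trans hD
    rw [h3, hB] at h4
    have h5 : (C 2 : K[X]) = 2 := map_ofNat C 2
    rw [h5]
    linear_combination h4
  have hne : (X - C b : K[X]) ≠ 0 := X_sub_C_ne_zero b
  have hd3 := mul_left_cancel₀ hne hd2
  have hBb : B.IsRoot b := by
    have h3 := congrArg (eval b) hd3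
    simp only [eval_mul, eval_C, eval_sub, eval_X, sub_self, zero_mul] at h3
    exact (mul_eq_zero.1 h3).resolve_left h2
  obtain ⟨E, hE⟩ := dvd_iff_isRoot.2 hBb
  exact ⟨E, by rw [hA, hB, hE]; ring⟩

open Classical in
/-- a solution of `g ^ 2 r = c` modulo `(X - b) ^ 3` -/
noncomputable def sol {K : Type} [Field K] (b : K) (g : K[X]) (c : K) : K[X] :=
  if h : ∃ r : K[X], (X - C b) ^ 3 ∣ g ^ 2 * r - C c then h.choose else 0

theorem sol_spec {K : Type} [Field K] (b : K) (g : K[X]) (c : K) (h : K[X]) (hg : g.eval b ≠ 0)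
    (hh : (X - C b) ^ 3 ∣ g ^ 2 * h - C c) : (X - C b) ^ 3 ∣ h - sol b g c := by
  have hex : ∃ r : K[X], (X - C b) ^ 3 ∣ g ^ 2 * r - C c := ⟨h, hh⟩
  have hs : (X - C b) ^ 3 ∣ g ^ 2 * sol b g c - C c := by
    rw [sol, dif_pos hex]
    exact hex.choose_spec
  have h1 : (X - C b) ^ 3 ∣ g ^ 2 * (h - sol b g c) := by
    have := dvd_sub hh hs
    rwa [show g ^ 2 * h - C c - (g ^ 2 * sol b g c - C c) = g ^ 2 * (h - sol b g c) by ring] at this
  have hcop : IsCoprime ((X - C b) ^ 3) (g ^ 2) := by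
    apply IsCoprime.pow
    rw [(irreducible_X_sub_C b).coprime_iff_not_dvd, dvd_iff_isRoot]
    exact hg
  exact hcop.dvd_of_dvd_mul_left h1

theorem s_CB : S_CB := by
  intro hCARD hRES K _ _ p _ n hn hp
  classical
  have : Fintype K := Fintype.ofFinite K
  have hprime : p.Prime := by
    rcases CharP.char_is_prime_or_zero K p with h | h
    · exact h
    · omega
  have h2 : (2 : K) ≠ 0 := by
    intro h
    have h3 : ((2 : ℕ) : K) = 0 := by exact_mod_cast h
    rw [CharP.cast_eq_zero_iff K p] at h3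
    have := Nat.le_of_dvd (by norm_num) h3
    omega
  have hn1 : ((n : K) + 1) ≠ 0 := by
    intro h
    have h3 : ((n + 1 : ℕ) : K) = 0 := by exact_mod_cast h
    rw [CharP.cast_eq_zero_iff K p] at h3
    have := Nat.le_of_dvd (by omega) h3
    omega
  have f2 := (hCARD K 2).1
  have f3 := (hCARD K (n - 3)).1
  have f4 := (hCARD K (n - 4)).1
  have c2 := (hCARD K 2).2
  have c3 := (hCARD K (n - 3)).2
  have c4 := (hCARD K (n - 4)).2
  have : Fintype (Mon K 2) := Fintype.ofFinite _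
  set q := Nat.card K with hq
  let A1 := Σ t : K × Mon K 2 × K, {h : Mon K (n - 3) // (X - C t.1) ^ 3 ∣ h.1 - sol t.1 t.2.1.1 t.2.2}
  let A2 := K × Mon K (n - 3)
  let A3 := K × K × Mon K (n - 4)
  have hA1 : Nat.card A1 = q ^ (n - 2) := by
    have h3 : ∀ t : K × Mon K 2 × K,
        Nat.card {h : Mon K (n - 3) // (X - C t.1) ^ 3 ∣ h.1 - sol t.1 t.2.1.1 t.2.2} = q ^ (n - 6) := by
      intro t
      have h4 : ((X - C t.1 : K[X]) ^ 3).natDegree = 3 := by
        rw [natDegree_pow, natDegree_X_sub_C]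
      have h5 := hRES K (n - 3) ((X - C t.1) ^ 3) (sol t.1 t.2.1.1 t.2.2) ((monic_X_sub_C _).pow 3)
        (by rw [h4]; omega)
      rw [h5, h4]
      congr 1
    change Nat.card (Σ t : K × Mon K 2 × K, {h : Mon K (n - 3) // (X - C t.1) ^ 3 ∣ h.1 - sol t.1 t.2.1.1 t.2.2}) = _
    rw [Nat.card_sigma, Finset.sum_congr rfl (fun t _ => h3 t), Finset.sum_const, Finset.card_univ,
      ← Nat.card_eq_fintype_card, Nat.card_prod, Nat.card_prod, c2, smul_eq_mul]
    rw [← hq, show n - 2 = 1 + (2 + 1) + (n - 6) by omega, pow_add, pow_add, pow_add, pow_one]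
  have hA2 : Nat.card A2 = q ^ (n - 2) := by
    change Nat.card (K × Mon K (n - 3)) = _
    rw [Nat.card_prod, c3, ← hq, ← pow_succ']
    congr 1
    omega
  have hA3 : Nat.card A3 = q ^ (n - 2) := by
    change Nat.card (K × K × Mon K (n - 4)) = _
    rw [Nat.card_prod, Nat.card_prod, c4, ← hq, ← pow_succ', ← pow_succ']
    congr 1
    omega
  have hfin : Finite (A1 ⊕ (A2 ⊕ A3)) := inferInstance
  have hcard : Nat.card (A1 ⊕ (A2 ⊕ A3)) = 3 * q ^ (n - 2) := by
    rw [Nat.card_sum, Nat.card_sum, hA1, hA2, hA3]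
    ring
  rw [← hcard]
  let R : {x : (K × Mon K (n - 2)) × (Mon K 2 × Mon K (n - 3)) //
    (X - C x.1.1) ^ 2 * x.1.2.1 = C ((n : K) + 1)⁻¹ * derivative (x.2.1.1 ^ 2 * x.2.2.1)} →
      A1 ⊕ (A2 ⊕ A3) → Prop := fun x a => match a with
    | Sum.inl s => x.1.1.1 = s.1.1 ∧ x.1.2.1 = s.1.2.1 ∧ x.1.2.2 = s.2.1
    | Sum.inr (Sum.inl s) => x.1.1.1 = s.1 ∧ x.1.2.1.1 = (X - C s.1) ^ 2 ∧ x.1.2.2 = s.2
    | Sum.inr (Sum.inr s) => x.1.1.1 = s.1 ∧ x.1.2.1.1 = (X - C s.1) * (X - C s.2.1) ∧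
        x.1.2.2.1 = (X - C s.1) * s.2.2.1
  apply card_le_of_rel R
  · rintro ⟨⟨⟨b, k⟩, ⟨g, h⟩⟩, hx⟩
    simp only at hx
    have hdvd : (X - C b) ^ 2 ∣ derivative (g.1 ^ 2 * h.1) := by
      refine ⟨C ((n : K) + 1) * k.1, ?_⟩
      have h3 : C ((n : K) + 1) * C ((n : K) + 1)⁻¹ = (1 : K[X]) := by
        rw [← C_mul, mul_inv_cancel₀ hn1, C_1]
      linear_combination (-C ((n : K) + 1)) * hx + (-derivative (g.1 ^ 2 * h.1)) * h3
    have hcube := cube_dvd h2 _ b hdvd
    by_cases hg : g.1.eval b = 0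
    · have hval : (g.1 ^ 2 * h.1).eval b = 0 := by
        rw [eval_mul, eval_pow, hg]
        ring
      rw [hval, C_0, sub_zero] at hcube
      obtain ⟨l, hl⟩ := dvd_iff_isRoot.2 (show g.1.IsRoot b from hg)
      have hlm : l.Monic := by
        have h3 := g.2.1
        rw [hl] at h3
        exact (monic_X_sub_C b).of_mul_monic_left h3
      have hld : l.natDegree = 1 := by
        have h3 := g.2.2
        rw [hl, (monic_X_sub_C b).natDegree_mul hlm, natDegree_X_sub_C] at h3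
        omega
      obtain ⟨b', hb'⟩ : ∃ b', l = X - C b' := by
        refine ⟨-l.coeff 0, ?_⟩
        rw [eq_X_add_C_of_natDegree_le_one hld.le]
        have h3 : l.coeff 1 = 1 := by
          have h4 := hlm.coeff_natDegree
          rwa [hld] at h4
        rw [h3]
        simp
      by_cases hbb : b' = b
      · refine ⟨Sum.inr (Sum.inl (b, h)), rfl, ?_, rfl⟩
        change g.1 = (X - C b) ^ 2
        rw [hl, hb', hbb, pow_two]
      · have hdv : (X - C b) ∣ (X - C b') ^ 2 * h.1 := by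
          have hne : ((X - C b) ^ 2 : K[X]) ≠ 0 := pow_ne_zero _ (X_sub_C_ne_zero b)
          rw [← mul_dvd_mul_iff_left hne]
          have h4 : (X - C b) ^ 2 * (X - C b) = (X - C b) ^ 3 := by ring
          have h5 : (X - C b) ^ 2 * ((X - C b') ^ 2 * h.1) = g.1 ^ 2 * h.1 := by
            rw [hl, hb']; ring
          rw [h4, h5]
          exact hcube
        have hcop : IsCoprime (X - C b : K[X]) ((X - C b') ^ 2) := by
          apply IsCoprime.pow_right
          rw [(irreducible_X_sub_C b).coprime_iff_not_dvd, dvd_iff_isRoot]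
          intro h3
          have h4 : b - b' = 0 := by simpa [IsRoot] using h3
          exact hbb (sub_eq_zero.1 h4).symm
        obtain ⟨h1, hh1⟩ := hcop.dvd_of_dvd_mul_left hdv
        have hh1m : h1.Monic := by
          have h3 := h.2.1
          rw [hh1] at h3
          exact (monic_X_sub_C b).of_mul_monic_left h3
        have hh1d : h1.natDegree = n - 4 := by
          have h3 := h.2.2
          rw [hh1, (monic_X_sub_C b).natDegree_mul hh1m, natDegree_X_sub_C] at h3
          omega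
        refine ⟨Sum.inr (Sum.inr (b, b', ⟨h1, hh1m, hh1d⟩)), rfl, ?_, ?_⟩
        · change g.1 = (X - C b) * (X - C b')
          rw [hl, hb']
        · exact hh1
    · exact ⟨Sum.inl ⟨(b, g, (g.1 ^ 2 * h.1).eval b), ⟨h, sol_spec b g.1 _ h.1 hg hcube⟩⟩,
        rfl, rfl, rfl⟩
  · have key : ∀ x y : {x : (K × Mon K (n - 2)) × (Mon K 2 × Mon K (n - 3)) //
        (X - C x.1.1) ^ 2 * x.1.2.1 = C ((n : K) + 1)⁻¹ * derivative (x.2.1.1 ^ 2 * x.2.2.1)},
        x.1.1.1 = y.1.1.1 → x.1.2.1.1 = y.1.2.1.1 → x.1.2.2.1 = y.1.2.2.1 → x = y := by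
      rintro ⟨⟨⟨b, k⟩, ⟨g, h⟩⟩, hx⟩ ⟨⟨⟨b', k'⟩, ⟨g', h'⟩⟩, hy⟩ e1 e2 e3
      simp only at hx hy e1 e2 e3
      have e2' : g = g' := Subtype.ext e2
      have e3' : h = h' := Subtype.ext e3
      subst e1 e2' e3'
      have e4 : k = k' := by
        apply Subtype.ext
        exact mul_left_cancel₀ (pow_ne_zero 2 (X_sub_C_ne_zero b)) (hx.trans hy.symm)
      subst e4
      rfl
    rintro x y (s | s | s) hx hy
    · exact key x y (hx.1.trans hy.1.symm) (by rw [hx.2.1, hy.2.1]) (by rw [hx.2.2, hy.2.2])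
    · exact key x y (hx.1.trans hy.1.symm) (hx.2.1.trans hy.2.1.symm) (by rw [hx.2.2, hy.2.2])
    · exact key x y (hx.1.trans hy.1.symm) (hx.2.1.trans hy.2.1.symm) (hx.2.2.trans hy.2.2.symm)

end Pool.Agent.L7h32.AB
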